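import Pool.Agent.helper71.DSW.SpecB

/-! # Row dsw:ITR (MP_a87880_co): iterating the stationarity of one column -/

set_option autoImplicit false

namespace Pool.Agent.DSW

open Equiv Finset Function Pool.Agent.helper48.PP
open scoped ENNReal Classical

theorem ITR_hor (I : Bool) (J w J' w' : ℕ → Bool) (n : ℕ) (hJ : ∀ y < n, J y = J' y)
    (hw : ∀ y < n, w y = w' y) : hor I J w n = hor I J' w' n := by
  induction n with
  | zero => rfl
  | succ n ih =>
    have h := ih (fun y hy => hJ y (by omega)) (fun y hy => hw y (by omega))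
    simp only [hor]
    rw [h, hJ n (by omega), hw n (by omega)]

theorem ITR_ver (I : Bool) (J w J' w' : ℕ → Bool) (n : ℕ) (hJ : ∀ y ≤ n, J y = J' y)
    (hw : ∀ y ≤ n, w y = w' y) : ver I J w n = ver I J' w' n := by
  simp only [ver]
  rw [ITR_hor I J w J' w' n (fun y hy => hJ y hy.le) (fun y hy => hw y hy.le), hJ n le_rfl,
    hw n le_rfl]

theorem ITR_Js (I I' : ℕ → Bool) (J : ℕ → Bool) (w w' : ℕ → ℕ → Bool) (M : ℕ)
    (hI : ∀ x < M, I x = I' x) (hw : ∀ x < M, w x = w' x) : Js I J w M = Js I' J w' M := by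
  induction M with
  | zero => rfl
  | succ M ih =>
    have h := ih (fun y hy => hI y (by omega)) (fun y hy => hw y (by omega))
    simp only [Js]
    rw [h, hI M (by omega), hw M (by omega)]

/-- the increments after `M` columns, restricted to the rows `< M'` -/
def ITR_W (M M' : ℕ) (I : Fin M → Bool) (w : Fin M → Fin M' → Bool) (J : Fin M' → Bool) :
    Fin M' → Bool :=
  fun y => Js (exb I) (exb J)
    (fun x => if h : x < M then exb (w ⟨x, h⟩) else fun _ => false) M (y : ℕ)

theorem ITR_step (M M' : ℕ) (I : Fin M → Bool) (i : Bool) (w : Fin M → Fin M' → Bool)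
    (ω : Fin M' → Bool) (J : Fin M' → Bool) :
    ITR_W (M + 1) M' (Fin.snoc (α := fun _ => Bool) I i)
      (Fin.snoc (α := fun _ => Fin M' → Bool) w ω) J =
      fun y : Fin M' => ver i (exb (ITR_W M M' I w J)) (exb ω) (y : ℕ) := by
  funext y
  unfold ITR_W
  simp only [Js]
  have e1 : exb (Fin.snoc (α := fun _ => Bool) I i) M = i := by
    unfold exb
    rw [dif_pos (Nat.lt_succ_self M)]
    exact Fin.snoc_last (α := fun _ => Bool) i I
  have e2 : (if h : M < M + 1 then exb (Fin.snoc (α := fun _ => Fin M' → Bool) w ω ⟨M, h⟩)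
      else fun _ => false) = exb ω := by
    rw [dif_pos (Nat.lt_succ_self M)]
    congr 1
    exact Fin.snoc_last (α := fun _ => Fin M' → Bool) ω w
  rw [e1, e2]
  apply ITR_ver
  · intro y' hy'
    have hy2 : y' < M' := lt_of_le_of_lt hy' y.2
    have e3 : ∀ A : Fin M' → Bool, exb A y' = A ⟨y', hy2⟩ := by
      intro A
      unfold exb
      rw [dif_pos hy2]
    rw [e3]
    refine congrFun (ITR_Js _ _ _ _ _ M ?_ ?_) y'
    · intro x hx
      unfold exb
      rw [dif_pos hx, dif_pos (Nat.lt_succ_of_lt hx)]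
      exact Fin.snoc_castSucc (α := fun _ => Bool) i I ⟨x, hx⟩
    · intro x hx
      rw [dif_pos hx, dif_pos (Nat.lt_succ_of_lt hx)]
      congr 1
      exact Fin.snoc_castSucc (α := fun _ => Fin M' → Bool) ω w ⟨x, hx⟩
  · intro y' _
    rfl

theorem ITR_sum {α : Type} [Fintype α] (M : ℕ) (g : (Fin (M + 1) → α) → ℝ) :
    ∑ I : Fin (M + 1) → α, g I =
      ∑ I : Fin M → α, ∑ i : α, g (Fin.snoc (α := fun _ => α) I i) := by
  rw [← Fintype.sum_prod_type (f := fun z : (Fin M → α) × α =>
    g (Fin.snoc (α := fun _ => α) z.1 z.2))]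
  refine (Fintype.sum_equiv ((Equiv.prodComm _ _).trans (Fin.snocEquiv (fun _ : Fin (M + 1) => α)))
    _ _ ?_).symm
  intro z
  rfl

theorem ITR (hCEL : CEL_stmt) : ITR_stmt := by
  intro M M' a β p h
  have hmu : ∑ I : Bool, mu a I = 1 := by
    rw [Fintype.sum_bool]
    simp [mu]
  induction M with
  | zero =>
    intro F
    rw [Fintype.sum_unique]
    apply Finset.sum_congr rfl
    intro J _
    rw [Fintype.sum_unique]
    simp only [Finset.univ_eq_empty, Finset.prod_empty, one_mul, mul_one]
    congr 2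
    funext y
    simp only [Js]
    unfold exb
    rw [dif_pos y.2]
  | succ M ih =>
    intro F
    have ih' : ∀ F : (Fin M' → Bool) → ℝ,
        (∑ I : Fin M → Bool, ∑ J : Fin M' → Bool, ∑ w : Fin M → Fin M' → Bool,
          (∏ x, mu a (I x)) * (∏ y, mu β (J y)) * (∏ x, ∏ y, mu p (w x y)) *
            F (ITR_W M M' I w J)) =
        ∑ J : Fin M' → Bool, (∏ y, mu β (J y)) * F J := ih
    have goal' : (∑ I : Fin (M + 1) → Bool, ∑ J : Fin M' → Bool,
        ∑ w : Fin (M + 1) → Fin M' → Bool,
          (∏ x, mu a (I x)) * (∏ y, mu β (J y)) * (∏ x, ∏ y, mu p (w x y)) *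
            F (ITR_W (M + 1) M' I w J)) =
        ∑ J : Fin M' → Bool, (∏ y, mu β (J y)) * F J := by
      set F' : (Fin M' → Bool) → ℝ := fun J' => ∑ i : Bool, ∑ ω : Fin M' → Bool,
        mu a i * (∏ y, mu p (ω y)) * F (fun y => ver i (exb J') (exb ω) (y : ℕ)) with hF'
      have h1 : (∑ I : Fin (M + 1) → Bool, ∑ J : Fin M' → Bool,
          ∑ w : Fin (M + 1) → Fin M' → Bool,
          (∏ x, mu a (I x)) * (∏ y, mu β (J y)) * (∏ x, ∏ y, mu p (w x y)) *
            F (ITR_W (M + 1) M' I w J)) =
          ∑ I : Fin M → Bool, ∑ J : Fin M' → Bool, ∑ w : Fin M → Fin M' → Bool,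
            (∏ x, mu a (I x)) * (∏ y, mu β (J y)) * (∏ x, ∏ y, mu p (w x y)) *
              F' (ITR_W M M' I w J) := by
        rw [ITR_sum]
        apply Finset.sum_congr rfl
        intro I _
        rw [Finset.sum_comm]
        apply Finset.sum_congr rfl
        intro J _
        have h2 : ∀ i : Bool, ∑ w : Fin (M + 1) → Fin M' → Bool,
            (∏ x, mu a ((Fin.snoc (α := fun _ => Bool) I i : Fin (M + 1) → Bool) x)) *
              (∏ y, mu β (J y)) * (∏ x, ∏ y, mu p (w x y)) *
              F (ITR_W (M + 1) M' (Fin.snoc (α := fun _ => Bool) I i) w J) =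
            ∑ w : Fin M → Fin M' → Bool, ∑ ω : Fin M' → Bool,
              (∏ x, mu a (I x)) * (∏ y, mu β (J y)) * (∏ x, ∏ y, mu p (w x y)) *
                (mu a i * (∏ y, mu p (ω y)) *
                  F (fun y => ver i (exb (ITR_W M M' I w J)) (exb ω) (y : ℕ))) := by
          intro i
          rw [ITR_sum]
          apply Finset.sum_congr rfl
          intro w _
          apply Finset.sum_congr rfl
          intro ω _
          rw [ITR_step, Fin.prod_univ_castSucc, Fin.prod_univ_castSucc]
          simp only [Fin.snoc_castSucc, Fin.snoc_last]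
          ring
        rw [Finset.sum_congr rfl (fun i _ => h2 i), Finset.sum_comm]
        apply Finset.sum_congr rfl
        intro w _
        rw [hF']
        simp only
        rw [Finset.mul_sum]
        apply Finset.sum_congr rfl
        intro i _
        rw [Finset.mul_sum]
      rw [h1, ih' F', hF']
      have h3 := hCEL M' a β p h (fun J _ => F J)
      have h4 : ∑ J : Fin M' → Bool, (∏ y, mu β (J y)) *
          (∑ i : Bool, ∑ ω : Fin M' → Bool,
            mu a i * (∏ y, mu p (ω y)) * F (fun y => ver i (exb J) (exb ω) (y : ℕ))) =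
          ∑ I : Bool, ∑ J : Fin M' → Bool, ∑ w : Fin M' → Bool,
            mu a I * (∏ y, mu β (J y)) * (∏ y, mu p (w y)) *
              F (fun y => ver I (exb J) (exb w) (y : ℕ)) := by
        rw [Finset.sum_comm]
        apply Finset.sum_congr rfl
        intro J _
        rw [Finset.mul_sum]
        apply Finset.sum_congr rfl
        intro i _
        rw [Finset.mul_sum]
        apply Finset.sum_congr rfl
        intro ω _
        ring
      rw [h4, h3, Finset.sum_comm]
      apply Finset.sum_congr rfl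
      intro J _
      have h5 : ∑ y : Bool, mu a y * (∏ y, mu β (J y)) * F J =
          (∑ y : Bool, mu a y) * ((∏ y, mu β (J y)) * F J) := by
        rw [Finset.sum_mul]
        apply Finset.sum_congr rfl
        intro y _
        ring
      rw [h5, hmu, one_mul]
    exact goal'

end Pool.Agent.DSW
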